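import Mathlib

/-!
# MP_bada7b_pr: the modified log-Sobolev constant is not controlled by the entropy mixing time

Three states `0 - 1 - 2` on a path, `π = (p, p, 1 - 2p)`, `P(0,1) = P(1,0) = P(1,2) = 1/2`.  From
the states `0, 1` the chain reaches the state `2`, which carries almost all the mass, in `O(1)`
steps, so that `ρ_ent` and `τ_ent` are of order `log log (1/p)`.  With `L = log (1/p)` the test
function `e^f = (1/p, 1/(p L), 1)` gives `c_MLS ≤ (1 + log L) / L`: the decay from `0` to `1` costs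
only `log L`, and the state `1` carries so little entropy that its escape costs `O(1)`.
-/

set_option autoImplicit false

namespace Pool.Agent.Results.MP_bada7b_pr.NotComparable

open Matrix Finset Filter Topology

section defs

variable {Ω : Type} [Fintype Ω] [DecidableEq Ω]

/-- `P` is an irreducible transition matrix on `Ω`, reversible with respect to the probability
distribution `π` (which is then its stationary distribution). -/
structure IsReversibleChain (P : Matrix Ω Ω ℝ) (π : Ω → ℝ) : Prop where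
  nonneg : ∀ x y, 0 ≤ P x y
  row_sum : ∀ x, ∑ y, P x y = 1
  irreducible : ∀ x y, ∃ n : ℕ, 0 < (P ^ n) x y
  pi_nonneg : ∀ x, 0 ≤ π x
  pi_sum : ∑ x, π x = 1
  detailed_balance : ∀ x y, π x * P x y = π y * P y x

/-- The heat kernel `H_t = exp (-t (I - P))` (also used for substochastic matrices `P`). -/
noncomputable def heat (P : Matrix Ω Ω ℝ) (t : ℝ) : Matrix Ω Ω ℝ :=
  NormedSpace.exp (-(t • (1 - P)))

/-- The Dirichlet form `𝓔(f, g) = ⟨(I - P) f, g⟩_π`. -/
noncomputable def dirichlet (P : Matrix Ω Ω ℝ) (π f g : Ω → ℝ) : ℝ :=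
  ∑ x, π x * (((1 - P) *ᵥ f) x) * g x

/-- `Ent_π(f) = E_π[f log f] - E_π[f] log E_π[f]`. -/
noncomputable def ent (π f : Ω → ℝ) : ℝ :=
  ∑ x, π x * (f x * Real.log (f x)) - (∑ x, π x * f x) * Real.log (∑ x, π x * f x)

/-- The modified log-Sobolev constant: the infimum of `𝓔(e^f, f) / Ent_π(e^f)` over the
non-constant functions `f`. -/
noncomputable def cMLS (P : Matrix Ω Ω ℝ) (π : Ω → ℝ) : ℝ :=
  sInf {r : ℝ | ∃ f : Ω → ℝ, (∃ x y, f x ≠ f y) ∧
    r = dirichlet P π (fun x => Real.exp (f x)) f / ent π (fun x => Real.exp (f x))}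

/-- Relative entropy `D(μ ‖ π) = ∑ μ(y) log (μ(y) / π(y))`. -/
noncomputable def relEnt (μ π : Ω → ℝ) : ℝ :=
  ∑ y, μ y * Real.log (μ y / π y)

/-- The entropy mixing time `τ_ent = max_x inf {t : D(Pr_x^t ‖ π) ≤ 1/2}`. -/
noncomputable def tauEnt (P : Matrix Ω Ω ℝ) (π : Ω → ℝ) : ℝ :=
  ⨆ x : Ω, sInf {t : ℝ | 0 ≤ t ∧ relEnt (heat P t x) π ≤ 1 / 2}

/-- The chain killed outside `A`: the entries `P(x, y)` with `x, y ∈ A`, all others `0`. -/
def killed (P : Matrix Ω Ω ℝ) (A : Finset Ω) : Matrix Ω Ω ℝ :=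
  Matrix.of fun x y => if x ∈ A ∧ y ∈ A then P x y else 0

/-- `Pr_x[T_{A^c} > t]`, the probability that the continuous-time chain started at `x` stays in `A`
up to time `t`: the mass at time `t` of the semigroup killed outside `A`. -/
noncomputable def survival (P : Matrix Ω Ω ℝ) (A : Finset Ω) (x : Ω) (t : ℝ) : ℝ :=
  ∑ y ∈ A, heat (killed P A) t x y

/-- `A` is connected: every `b ∈ A` can be reached from every `a ∈ A` without leaving `A`. -/
def Connected (P : Matrix Ω Ω ℝ) (A : Finset Ω) : Prop :=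
  ∀ a ∈ A, ∀ b ∈ A, ∃ n : ℕ, 0 < ((killed P A) ^ n) a b

/-- The family `Con_{1/2}` of the (nonempty) connected sets `A` with `π(A) ≤ 1/2`. -/
def Con (P : Matrix Ω Ω ℝ) (π : Ω → ℝ) (A : Finset Ω) : Prop :=
  A.Nonempty ∧ Connected P A ∧ ∑ y ∈ A, π y ≤ 1 / 2

/-- The entropy hitting-time parameter `ρ_ent` with constant `Cent`:
`ρ_{ent,x} = min {t : Pr_x[T_{A^c} > t] ≤ min (Cent / |log π(A)|, 99/100) for all A ∈ Con_{1/2}}`
and `ρ_ent = max_x ρ_{ent,x}`. -/
noncomputable def rhoEnt (Cent : ℝ) (P : Matrix Ω Ω ℝ) (π : Ω → ℝ) : ℝ :=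
  ⨆ x : Ω, sInf {t : ℝ | 0 ≤ t ∧ ∀ A : Finset Ω, Con P π A →
    survival P A x t ≤ min (Cent / |Real.log (∑ y ∈ A, π y)|) (99 / 100)}

end defs

section heat

variable {Ω : Type} [Fintype Ω] [DecidableEq Ω]

attribute [local instance] Matrix.linftyOpNormedRing Matrix.linftyOpNormedAlgebra

theorem heat_eq (M : Matrix Ω Ω ℝ) (t : ℝ) :
    heat M t = Real.exp (-t) • NormedSpace.exp (t • M) := by
  unfold heat
  have h1 : -(t • ((1 : Matrix Ω Ω ℝ) - M)) = (-t) • (1 : Matrix Ω Ω ℝ) + t • M := by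
    rw [smul_sub, neg_smul]; abel
  rw [h1, Matrix.exp_add_of_commute]
  · have h2 : NormedSpace.exp ((-t) • (1 : Matrix Ω Ω ℝ)) = Real.exp (-t) • 1 := by
      have h3 : (-t) • (1 : Matrix Ω Ω ℝ) = Matrix.diagonal fun _ => -t := by
        rw [← Matrix.diagonal_one, ← Matrix.diagonal_smul]
        congr 1; funext i; simp
      rw [h3, Matrix.exp_diagonal, ← Matrix.diagonal_one, ← Matrix.diagonal_smul]
      congr 1
      funext i
      rw [Pi.coe_exp, ← Real.exp_eq_exp_ℝ]
      simp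
    rw [h2, smul_mul_assoc, one_mul]
  · exact (Commute.one_left (t • M)).smul_left (-t)

theorem heat_hasSum (M : Matrix Ω Ω ℝ) (t : ℝ) (w : Ω → ℝ) (x : Ω) :
    HasSum (fun n : ℕ => Real.exp (-t) * (t ^ n / n.factorial) * ((M ^ n) *ᵥ w) x)
      ((heat M t *ᵥ w) x) := by
  have h0 : HasSum (fun n : ℕ => ((n.factorial : ℝ)⁻¹) • (t • M) ^ n)
      (NormedSpace.exp (t • M)) := NormedSpace.exp_series_hasSum_exp' (𝕂 := ℝ) (t • M)
  have h1 : HasSum (fun n : ℕ => (((n.factorial : ℝ)⁻¹) • (t • M) ^ n) *ᵥ w)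
      (NormedSpace.exp (t • M) *ᵥ w) := by
    exact h0.map (⟨⟨fun A : Matrix Ω Ω ℝ => A *ᵥ w, by simp⟩, fun A B => Matrix.add_mulVec A B w⟩ :
      Matrix Ω Ω ℝ →+ (Ω → ℝ)) (by
        change Continuous fun A : Matrix Ω Ω ℝ => A *ᵥ w
        fun_prop)
  have h2 := (Pi.hasSum.1 h1 x).mul_left (Real.exp (-t))
  have h3 : (heat M t *ᵥ w) x = Real.exp (-t) * (NormedSpace.exp (t • M) *ᵥ w) x := by
    rw [heat_eq, Matrix.smul_mulVec]
    rfl
  have h4 : (fun n : ℕ => Real.exp (-t) * (t ^ n / n.factorial) * ((M ^ n) *ᵥ w) x) =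
      fun n : ℕ => Real.exp (-t) * ((((n.factorial : ℝ)⁻¹) • (t • M) ^ n) *ᵥ w) x := by
    funext n
    rw [smul_pow, Matrix.smul_mulVec, Matrix.smul_mulVec]
    simp only [Pi.smul_apply, smul_eq_mul]
    ring
  rw [h3, h4]
  exact h2


theorem pow_le (M : Matrix Ω Ω ℝ) (hM : ∀ x y, 0 ≤ M x y) (hrow : ∀ x, ∑ y, M x y ≤ 1)
    (v : Ω → ℝ) (r c : ℝ) (hr0 : 0 ≤ r) (hr : r < 1) (hc : 0 ≤ c)
    (h : ∀ x, (M *ᵥ v) x ≤ r * v x + c) (n : ℕ) (x : Ω) :
    ((M ^ n) *ᵥ v) x ≤ r ^ n * v x + c * (1 - r ^ n) / (1 - r) := by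
  induction n generalizing x with
  | zero => simp
  | succ n ih =>
    have h1 : ((M ^ (n + 1)) *ᵥ v) x = ∑ y, M x y * ((M ^ n) *ᵥ v) y := by
      rw [pow_succ', ← Matrix.mulVec_mulVec]
      rfl
    have h1r : 0 < 1 - r := by linarith
    have hrn : r ^ n ≤ 1 := pow_le_one₀ hr0 hr.le
    have hK : 0 ≤ c * (1 - r ^ n) / (1 - r) := by
      apply div_nonneg (mul_nonneg hc (by linarith)) h1r.le
    calc ((M ^ (n + 1)) *ᵥ v) x = ∑ y, M x y * ((M ^ n) *ᵥ v) y := h1
      _ ≤ ∑ y, M x y * (r ^ n * v y + c * (1 - r ^ n) / (1 - r)) := by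
        refine Finset.sum_le_sum fun y _ => mul_le_mul_of_nonneg_left (ih y) (hM x y)
      _ = r ^ n * (M *ᵥ v) x + (c * (1 - r ^ n) / (1 - r)) * ∑ y, M x y := by
        rw [Matrix.mulVec, dotProduct, Finset.mul_sum, Finset.mul_sum, ← Finset.sum_add_distrib]
        refine Finset.sum_congr rfl fun y _ => ?_
        ring
      _ ≤ r ^ n * (r * v x + c) + (c * (1 - r ^ n) / (1 - r)) * 1 := by
        have h2 := mul_le_mul_of_nonneg_left (h x) (pow_nonneg hr0 n)
        have h3 := mul_le_mul_of_nonneg_left (hrow x) hK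
        linarith
      _ = r ^ (n + 1) * v x + c * (1 - r ^ (n + 1)) / (1 - r) := by
        field_simp
        ring

theorem heat_le (M : Matrix Ω Ω ℝ) (hM : ∀ x y, 0 ≤ M x y) (hrow : ∀ x, ∑ y, M x y ≤ 1)
    (v : Ω → ℝ) (r c : ℝ) (hr0 : 0 ≤ r) (hr : r < 1) (hc : 0 ≤ c)
    (h : ∀ x, (M *ᵥ v) x ≤ r * v x + c) (t : ℝ) (ht : 0 ≤ t) (x : Ω) :
    (heat M t *ᵥ v) x ≤ Real.exp (-((1 - r) * t)) * v x + c / (1 - r) := by
  have h1r : 0 < 1 - r := by linarith
  have hK : 0 ≤ c / (1 - r) := by positivity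
  have e : ∀ s : ℝ, HasSum (fun n : ℕ => s ^ n / n.factorial) (Real.exp s) := by
    intro s
    rw [Real.exp_eq_exp_ℝ]
    exact NormedSpace.expSeries_div_hasSum_exp s
  have hs : HasSum (fun n : ℕ => Real.exp (-t) * v x * ((r * t) ^ n / n.factorial) +
      Real.exp (-t) * (c / (1 - r)) * (t ^ n / n.factorial))
      (Real.exp (-t) * v x * Real.exp (r * t) + Real.exp (-t) * (c / (1 - r)) * Real.exp t) :=
    ((e (r * t)).mul_left _).add ((e t).mul_left _)
  have hle := hasSum_le (fun n => ?_) (heat_hasSum M t v x) hs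
  · refine hle.trans (le_of_eq ?_)
    have e1 : Real.exp (-t) * Real.exp (r * t) = Real.exp (-((1 - r) * t)) := by
      rw [← Real.exp_add]; congr 1; ring
    have e2 : Real.exp (-t) * Real.exp t = 1 := by
      rw [← Real.exp_add]; simp
    calc _ = (Real.exp (-t) * Real.exp (r * t)) * v x +
          (Real.exp (-t) * Real.exp t) * (c / (1 - r)) := by ring
      _ = _ := by rw [e1, e2, one_mul]
  · have h1 := pow_le M hM hrow v r c hr0 hr hc h n x
    have hrn : 0 ≤ r ^ n := pow_nonneg hr0 n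
    have h2 : c * (1 - r ^ n) / (1 - r) ≤ c / (1 - r) := by
      apply div_le_div_of_nonneg_right _ h1r.le
      nlinarith
    have h3 : 0 ≤ Real.exp (-t) * (t ^ n / n.factorial) := by positivity
    calc Real.exp (-t) * (t ^ n / n.factorial) * ((M ^ n) *ᵥ v) x
        ≤ Real.exp (-t) * (t ^ n / n.factorial) * (r ^ n * v x + c / (1 - r)) :=
          mul_le_mul_of_nonneg_left (h1.trans (by linarith)) h3
      _ = _ := by rw [mul_pow]; ring

theorem pow_nonneg' (M : Matrix Ω Ω ℝ) (hM : ∀ x y, 0 ≤ M x y) (n : ℕ) (x y : Ω) :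
    0 ≤ (M ^ n) x y := by
  induction n generalizing x y with
  | zero =>
    rw [pow_zero, Matrix.one_apply]
    split_ifs <;> norm_num
  | succ n ih =>
    rw [pow_succ, Matrix.mul_apply]
    exact Finset.sum_nonneg fun z _ => mul_nonneg (ih x z) (hM z y)

theorem heat_mono (M : Matrix Ω Ω ℝ) (hM : ∀ x y, 0 ≤ M x y) (v w : Ω → ℝ)
    (hvw : ∀ x, v x ≤ w x) (t : ℝ) (ht : 0 ≤ t) (x : Ω) :
    (heat M t *ᵥ v) x ≤ (heat M t *ᵥ w) x := by
  refine hasSum_le (fun n => ?_) (heat_hasSum M t v x) (heat_hasSum M t w x)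
  refine mul_le_mul_of_nonneg_left ?_ (by positivity)
  refine Finset.sum_le_sum fun y _ => mul_le_mul_of_nonneg_left (hvw y) (pow_nonneg' M hM n x y)

theorem heat_nonneg (M : Matrix Ω Ω ℝ) (hM : ∀ x y, 0 ≤ M x y) (t : ℝ) (ht : 0 ≤ t) (x y : Ω) :
    0 ≤ heat M t x y := by
  have h := heat_mono M hM 0 (Pi.single y 1) (fun z => by
    by_cases h : z = y
    · subst h; simp
    · simp [Pi.single_eq_of_ne h]) t ht x
  simpa using h

theorem heat_row (M : Matrix Ω Ω ℝ) (hrow : ∀ x, ∑ y, M x y = 1) (t : ℝ) (x : Ω) :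
    ∑ y, heat M t x y = 1 := by
  have h1 : ∀ n : ℕ, (M ^ n) *ᵥ (fun _ => (1 : ℝ)) = fun _ => 1 := by
    intro n
    induction n with
    | zero => simp
    | succ n ih =>
      rw [pow_succ, ← Matrix.mulVec_mulVec]
      have : M *ᵥ (fun _ => (1 : ℝ)) = fun _ => 1 := by
        funext z
        simp only [Matrix.mulVec, dotProduct, mul_one]
        exact hrow z
      rw [this, ih]
  have h2 := heat_hasSum M t (fun _ => 1) x
  simp only [h1, mul_one] at h2
  have h3 : HasSum (fun n : ℕ => Real.exp (-t) * (t ^ n / n.factorial))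
      (Real.exp (-t) * Real.exp t) := by
    refine HasSum.mul_left _ ?_
    rw [Real.exp_eq_exp_ℝ]
    exact NormedSpace.expSeries_div_hasSum_exp t
  have h4 := h2.unique h3
  rw [← Real.exp_add, neg_add_cancel, Real.exp_zero] at h4
  simpa [Matrix.mulVec, dotProduct] using h4

end heat


section chain

/-- The transition matrix on the three states `0 - 1 - 2`. -/
noncomputable def chain (p : ℝ) : Matrix (Fin 3) (Fin 3) ℝ :=
  !![1 / 2, 1 / 2, 0; 1 / 2, 0, 1 / 2; 0, p / (2 * (1 - 2 * p)), 1 - p / (2 * (1 - 2 * p))]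

/-- Its stationary distribution. -/
def stat (p : ℝ) : Fin 3 → ℝ := ![p, p, 1 - 2 * p]

/-- The Lyapunov function. -/
noncomputable def lyap : Fin 3 → ℝ := ![5 / 3, 1, 0]

variable {p : ℝ}

theorem q_bounds (h0 : 0 < p) (h1 : p ≤ 1 / 8) :
    0 < p / (2 * (1 - 2 * p)) ∧ p / (2 * (1 - 2 * p)) ≤ p := by
  have h2 : 0 < 2 * (1 - 2 * p) := by linarith
  refine ⟨by positivity, ?_⟩
  rw [div_le_iff₀ h2]
  nlinarith

theorem chain_nonneg (h0 : 0 < p) (h1 : p ≤ 1 / 8) (x y : Fin 3) : 0 ≤ chain p x y := by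
  obtain ⟨h2, h3⟩ := q_bounds h0 h1
  fin_cases x <;> fin_cases y <;> simp [chain] <;> linarith

theorem chain_row (x : Fin 3) : ∑ y, chain p x y = 1 := by
  fin_cases x <;> simp [chain, Fin.sum_univ_three] <;> ring

theorem isChain (h0 : 0 < p) (h1 : p ≤ 1 / 8) : IsReversibleChain (chain p) (stat p) := by
  obtain ⟨h2, h3⟩ := q_bounds h0 h1
  have h4 : (1 - 2 * p) ≠ 0 := by linarith
  refine ⟨chain_nonneg h0 h1, chain_row, ?_, ?_, ?_, ?_⟩
  · intro x y
    refine ⟨2, ?_⟩
    rw [pow_two, Matrix.mul_apply, Fin.sum_univ_three]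
    have h5 : 0 < 1 - p / (2 * (1 - 2 * p)) := by linarith
    generalize hq : p / (2 * (1 - 2 * p)) = q at *
    fin_cases x <;> fin_cases y <;> simp [chain, hq] <;> nlinarith
  · intro x
    fin_cases x <;> simp [stat] <;> linarith
  · simp [stat, Fin.sum_univ_three]; ring
  · intro x y
    have h6 : p * (1 / 2) = (1 - 2 * p) * (p / (2 * (1 - 2 * p))) := by
      have h7 : 2 * (1 - 2 * p) ≠ 0 := mul_ne_zero two_ne_zero h4
      rw [eq_comm, ← mul_div_assoc, div_eq_iff h7]
      ring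
    generalize hq : p / (2 * (1 - 2 * p)) = q at *
    fin_cases x <;> fin_cases y <;> simp [chain, stat, hq] <;> linarith

theorem small_set (h0 : 0 < p) (h1 : p ≤ 1 / 8) {A : Finset (Fin 3)}
    (hA : ∑ y ∈ A, stat p y ≤ 1 / 2) : (2 : Fin 3) ∉ A := by
  intro h
  have h2 : stat p 2 ≤ ∑ y ∈ A, stat p y := by
    refine Finset.single_le_sum (f := stat p) (fun i _ => ?_) h
    exact (isChain h0 h1).pi_nonneg i
  have h3 : stat p 2 = 1 - 2 * p := by simp [stat]
  linarith

theorem killed_nonneg (h0 : 0 < p) (h1 : p ≤ 1 / 8) (A : Finset (Fin 3)) (x y : Fin 3) :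
    0 ≤ killed (chain p) A x y := by
  unfold killed
  simp only [Matrix.of_apply]
  split_ifs
  · exact chain_nonneg h0 h1 x y
  · exact le_rfl

theorem killed_le (h0 : 0 < p) (h1 : p ≤ 1 / 8) (A : Finset (Fin 3)) (x y : Fin 3) :
    killed (chain p) A x y ≤ chain p x y := by
  unfold killed
  simp only [Matrix.of_apply]
  split_ifs
  · exact le_rfl
  · exact chain_nonneg h0 h1 x y

theorem survival_le (h0 : 0 < p) (h1 : p ≤ 1 / 8) {A : Finset (Fin 3)}
    (hA : ∑ y ∈ A, stat p y ≤ 1 / 2) (x : Fin 3) (t : ℝ) (ht : 0 ≤ t) :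
    survival (chain p) A x t ≤ 5 / 3 * Real.exp (-(t / 6)) := by
  have h2 := small_set h0 h1 hA
  have hK := killed_nonneg h0 h1 A
  have hl : ∀ x, 0 ≤ lyap x ∧ lyap x ≤ 5 / 3 := by
    intro x; fin_cases x <;> simp [lyap] <;> norm_num
  have e1 : survival (chain p) A x t = (heat (killed (chain p) A) t *ᵥ
      (fun y => if y ∈ A then (1 : ℝ) else 0)) x := by
    unfold survival
    simp [Matrix.mulVec, dotProduct]
  have e2 : (heat (killed (chain p) A) t *ᵥ (fun y => if y ∈ A then (1 : ℝ) else 0)) x ≤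
      (heat (killed (chain p) A) t *ᵥ lyap) x := by
    refine heat_mono _ hK _ _ (fun y => ?_) t ht x
    fin_cases y
    · simp [lyap]; split_ifs <;> norm_num
    · simp [lyap]; split_ifs <;> norm_num
    · simp [lyap, h2]
  have hdrift : ∀ z, (killed (chain p) A *ᵥ lyap) z ≤ 5 / 6 * lyap z + 0 := by
    intro z
    have h3 : (killed (chain p) A *ᵥ lyap) z ≤ (chain p *ᵥ lyap) z := by
      rw [Matrix.mulVec, Matrix.mulVec, dotProduct, dotProduct]
      exact Finset.sum_le_sum fun y _ =>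
        mul_le_mul_of_nonneg_right (killed_le h0 h1 A z y) (hl y).1
    fin_cases z
    · refine h3.trans ?_
      simp [chain, lyap, Matrix.mulVec, dotProduct, Fin.sum_univ_three]; norm_num
    · refine h3.trans ?_
      simp [chain, lyap, Matrix.mulVec, dotProduct, Fin.sum_univ_three]; norm_num
    · simp [killed, lyap, Matrix.mulVec, dotProduct, h2]
  have e3 := heat_le _ hK (fun z => (Finset.sum_le_sum fun y _ => killed_le h0 h1 A z y).trans
    (chain_row z).le) lyap (5 / 6) 0 (by norm_num) (by norm_num) le_rfl hdrift t ht x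
  rw [e1]
  refine (e2.trans e3).trans ?_
  have h4 : (1 - 5 / 6 : ℝ) * t = t / 6 := by ring
  rw [h4, zero_div, add_zero, mul_comm]
  exact mul_le_mul_of_nonneg_right (hl x).2 (Real.exp_pos _).le

/-- The mass outside the state `2` at time `t`. -/
theorem mass_le (h0 : 0 < p) (h1 : p ≤ 1 / 8) (x : Fin 3) (t : ℝ) (ht : 0 ≤ t) :
    heat (chain p) t x 0 + heat (chain p) t x 1 ≤ 5 / 3 * Real.exp (-(t / 6)) + 6 * p := by
  obtain ⟨hq0, hq1⟩ := q_bounds h0 h1
  have hK := chain_nonneg h0 h1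
  have hl : ∀ x, 0 ≤ lyap x ∧ lyap x ≤ 5 / 3 := by
    intro x; fin_cases x <;> simp [lyap] <;> norm_num
  have e0 := heat_nonneg _ hK t ht x
  have hdrift : ∀ z, (chain p *ᵥ lyap) z ≤ 5 / 6 * lyap z + p := by
    intro z
    fin_cases z
    · simp [chain, lyap, Matrix.mulVec, dotProduct, Fin.sum_univ_three]; linarith
    · simp [chain, lyap, Matrix.mulVec, dotProduct, Fin.sum_univ_three]; linarith
    · simp [chain, lyap, Matrix.mulVec, dotProduct, Fin.sum_univ_three]; linarith
  have e3 := heat_le _ hK (fun z => (chain_row z).le) lyap (5 / 6) p (by norm_num) (by norm_num)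
    h0.le hdrift t ht x
  have e4 : (heat (chain p) t *ᵥ lyap) x = heat (chain p) t x 0 * (5 / 3) +
      heat (chain p) t x 1 := by
    simp [lyap, Matrix.mulVec, dotProduct, Fin.sum_univ_three]
  have h4 : (1 - 5 / 6 : ℝ) * t = t / 6 := by ring
  have h5 : p / (1 - 5 / 6) = 6 * p := by ring
  rw [e4, h4, h5] at e3
  have h6 : Real.exp (-(t / 6)) * lyap x ≤ 5 / 3 * Real.exp (-(t / 6)) := by
    rw [mul_comm]
    exact mul_le_mul_of_nonneg_right (hl x).2 (Real.exp_pos _).le
  have := e0 0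
  linarith


/-- The survival probabilities give the bound on the hitting-time parameter. -/
theorem rho_le (h0 : 0 < p) (h1 : p ≤ 1 / 8) {Cent : ℝ} (hC : 0 < Cent) (t : ℝ) (ht : 0 ≤ t)
    (h2 : 5 / 3 * Real.exp (-(t / 6)) ≤ min (Cent / Real.log (1 / p)) (99 / 100)) :
    rhoEnt Cent (chain p) (stat p) ≤ t := by
  unfold rhoEnt
  refine ciSup_le fun x => csInf_le ⟨0, fun s hs => hs.1⟩ ⟨ht, fun A hA => ?_⟩
  obtain ⟨hne, -, hA2⟩ := hA
  refine (survival_le h0 h1 hA2 x t ht).trans (h2.trans ?_)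
  refine min_le_min ?_ le_rfl
  have hpi := (isChain h0 h1).pi_nonneg
  have hn2 := small_set h0 h1 hA2
  -- `π(A) ≥ p`
  have h3 : p ≤ ∑ y ∈ A, stat p y := by
    obtain ⟨a, ha⟩ := hne
    have h4 : stat p a ≤ ∑ y ∈ A, stat p y :=
      Finset.single_le_sum (f := stat p) (fun i _ => hpi i) ha
    have h5 : stat p a = p := by
      have : a ≠ 2 := fun h => hn2 (h ▸ ha)
      fin_cases a <;> simp [stat] at this ⊢
    linarith
  have h4 : 0 < ∑ y ∈ A, stat p y := lt_of_lt_of_le h0 h3
  have h5 : |Real.log (∑ y ∈ A, stat p y)| = - Real.log (∑ y ∈ A, stat p y) :=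
    abs_of_nonpos (Real.log_nonpos h4.le (by linarith))
  have h6 : Real.log (1 / p) = - Real.log p := by rw [one_div, Real.log_inv]
  have h7 : 0 < - Real.log (∑ y ∈ A, stat p y) := by
    have := Real.log_neg h4 (by linarith)
    linarith
  rw [h5, h6]
  apply div_le_div_of_nonneg_left hC.le h7
  have := Real.log_le_log h0 h3
  linarith

theorem tau_le (h0 : 0 < p) (h1 : p ≤ 1 / 8) (t : ℝ) (ht : 0 ≤ t)
    (h2 : (5 / 3 * Real.exp (-(t / 6)) + 6 * p) * Real.log (1 / p) + 4 * p ≤ 1 / 2) :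
    tauEnt (chain p) (stat p) ≤ t := by
  unfold tauEnt
  refine ciSup_le fun x => csInf_le ⟨0, fun s hs => hs.1⟩ ⟨ht, ?_⟩
  have hK := chain_nonneg h0 h1
  have hm := mass_le h0 h1 x t ht
  have hn := heat_nonneg _ hK t ht x
  have hr := heat_row (chain p) chain_row t x
  rw [Fin.sum_univ_three] at hr
  have hle : ∀ y, heat (chain p) t x y ≤ 1 := by
    intro y
    have := hn 0
    have := hn 1
    have := hn 2
    fin_cases y <;> simp <;> linarith
  have hL : 0 ≤ Real.log (1 / p) := Real.log_nonneg (by rw [le_div_iff₀ h0]; linarith)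
  -- the two small states
  have key : ∀ m : ℝ, 0 ≤ m → m ≤ 1 → m * Real.log (m / p) ≤ m * Real.log (1 / p) := by
    intro m hm0 hm1
    rcases hm0.eq_or_lt with h | h
    · rw [← h]; simp
    · refine mul_le_mul_of_nonneg_left ?_ hm0
      exact Real.log_le_log (by positivity) (div_le_div_of_nonneg_right hm1 h0.le)
  have key2 : ∀ m : ℝ, 0 ≤ m → m ≤ 1 → m * Real.log (m / (1 - 2 * p)) ≤ 4 * p := by
    intro m hm0 hm1
    have h3 : 0 < 1 - 2 * p := by linarith
    rcases hm0.eq_or_lt with h | h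
    · rw [← h]; simp; exact h0.le
    · have h4 : Real.log (m / (1 - 2 * p)) ≤ m / (1 - 2 * p) - 1 :=
        Real.log_le_sub_one_of_pos (by positivity)
      have h5 : m / (1 - 2 * p) ≤ 1 + 4 * p := by
        rw [div_le_iff₀ h3]
        nlinarith
      nlinarith
  unfold relEnt
  rw [Fin.sum_univ_three]
  have s0 : stat p 0 = p := by simp [stat]
  have s1 : stat p 1 = p := by simp [stat]
  have s2 : stat p 2 = 1 - 2 * p := by simp [stat]
  rw [s0, s1, s2]
  have k0 := key _ (hn 0) (hle 0)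
  have k1 := key _ (hn 1) (hle 1)
  have k2 := key2 _ (hn 2) (hle 2)
  have k3 : (heat (chain p) t x 0 + heat (chain p) t x 1) * Real.log (1 / p) ≤
      (5 / 3 * Real.exp (-(t / 6)) + 6 * p) * Real.log (1 / p) :=
    mul_le_mul_of_nonneg_right hm hL
  linarith

theorem dirichlet_eq (h1 : p ≤ 1 / 8) (F f : Fin 3 → ℝ) :
    dirichlet (chain p) (stat p) F f =
      p / 2 * ((F 0 - F 1) * (f 0 - f 1) + (F 1 - F 2) * (f 1 - f 2)) := by
  have h4 : (1 - 2 * p) ≠ 0 := by linarith
  have h6 : (1 - 2 * p) * (p / (2 * (1 - 2 * p))) = p / 2 := by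
    have h7 : 2 * (1 - 2 * p) ≠ 0 := mul_ne_zero two_ne_zero h4
    rw [← mul_div_assoc, div_eq_iff h7]
    ring
  unfold dirichlet
  rw [Fin.sum_univ_three]
  generalize hq : p / (2 * (1 - 2 * p)) = q at *
  simp only [Matrix.mulVec, dotProduct, Fin.sum_univ_three, Matrix.sub_apply]
  simp [chain, stat, hq]
  linear_combination ((F 2 - F 1) * f 2) * h6


/-- The entropy of a non-constant function is positive. -/
theorem ent_pos (h0 : 0 < p) (h1 : p ≤ 1 / 8) (f : Fin 3 → ℝ) (hf : ∃ x y, f x ≠ f y) :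
    0 < ent (stat p) (fun x => Real.exp (f x)) := by
  have hpos : ∀ i : Fin 3, 0 < stat p i := by
    intro i; fin_cases i <;> simp [stat] <;> linarith
  obtain ⟨x, y, hxy⟩ := hf
  have h := Real.strictConvexOn_mul_log.map_sum_lt (t := Finset.univ) (w := stat p)
    (p := fun x => Real.exp (f x)) (fun i _ => hpos i) (isChain h0 h1).pi_sum
    (fun i _ => Set.mem_Ici.2 (Real.exp_pos _).le)
    ⟨x, Finset.mem_univ x, y, Finset.mem_univ y, fun h => hxy (Real.exp_injective h)⟩
  simp only [smul_eq_mul] at h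
  unfold ent
  linarith

/-- `Ent(F) ≤ Var(F) / E F`. -/
theorem ent_le (h0 : 0 < p) (h1 : p ≤ 1 / 8) (F : Fin 3 → ℝ) (hF : ∀ x, 0 < F x) :
    ent (stat p) F ≤ (p * (F 0 - F 2) ^ 2 + p * (F 1 - F 2) ^ 2) / (∑ x, stat p x * F x) := by
  have hpos : ∀ i : Fin 3, 0 < stat p i := by
    intro i; fin_cases i <;> simp [stat] <;> linarith
  set E : ℝ := ∑ x, stat p x * F x with hE
  have hE0 : 0 < E := Finset.sum_pos (fun i _ => mul_pos (hpos i) (hF i)) Finset.univ_nonempty
  have h2 : ent (stat p) F = ∑ x, stat p x * (F x * Real.log (F x / E)) := by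
    unfold ent
    rw [← hE]
    have h3 : ∀ x, stat p x * (F x * Real.log (F x / E)) =
        stat p x * (F x * Real.log (F x)) - (stat p x * F x) * Real.log E := by
      intro x
      rw [Real.log_div (hF x).ne' hE0.ne']
      ring
    simp only [h3]
    rw [Finset.sum_sub_distrib, ← Finset.sum_mul]
  have h3 : ∑ x, stat p x * (F x * Real.log (F x / E)) ≤
      ∑ x, stat p x * (F x * (F x / E - 1)) := by
    refine Finset.sum_le_sum fun x _ => ?_
    refine mul_le_mul_of_nonneg_left ?_ (hpos x).le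
    refine mul_le_mul_of_nonneg_left ?_ (hF x).le
    exact Real.log_le_sub_one_of_pos (div_pos (hF x) hE0)
  have h4 : ∑ x, stat p x * (F x * (F x / E - 1)) = (∑ x, stat p x * F x ^ 2 - E ^ 2) / E := by
    rw [eq_div_iff hE0.ne', Finset.sum_mul]
    have h5 : ∀ x, stat p x * (F x * (F x / E - 1)) * E = stat p x * F x ^ 2 -
        (stat p x * F x) * E := by
      intro x
      field_simp
    simp only [h5]
    rw [Finset.sum_sub_distrib, ← Finset.sum_mul, ← hE]
    ring
  rw [h2]
  refine (h3.trans h4.le).trans ?_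
  apply div_le_div_of_nonneg_right _ hE0.le
  have h6 : E = p * F 0 + p * F 1 + (1 - 2 * p) * F 2 := by
    rw [hE, Fin.sum_univ_three]
    simp [stat]
  rw [h6, Fin.sum_univ_three]
  simp only [stat, Matrix.cons_val_zero, Matrix.cons_val_one, Matrix.cons_val]
  nlinarith [sq_nonneg (p * (F 0 - F 2) + p * (F 1 - F 2))]

theorem ratio_ge (h0 : 0 < p) (h1 : p ≤ 1 / 8) (f : Fin 3 → ℝ) (hf : ∃ x y, f x ≠ f y) :
    p / 6 ≤ dirichlet (chain p) (stat p) (fun x => Real.exp (f x)) f /
      ent (stat p) (fun x => Real.exp (f x)) := by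
  rw [le_div_iff₀ (ent_pos h0 h1 f hf), dirichlet_eq h1]
  have hl := ent_le h0 h1 (fun x => Real.exp (f x)) (fun x => Real.exp_pos _)
  set F : Fin 3 → ℝ := fun x => Real.exp (f x) with hF
  have hFp : ∀ x, 0 < F x := fun x => Real.exp_pos _
  have hpos : ∀ i : Fin 3, 0 < stat p i := by
    intro i; fin_cases i <;> simp [stat] <;> linarith
  set E : ℝ := ∑ x, stat p x * F x with hE
  have hE0 : 0 < E := Finset.sum_pos (fun i _ => mul_pos (hpos i) (hFp i)) Finset.univ_nonempty
  -- every value is at most `E / p`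
  have hmax : ∀ x, F x ≤ E / p := by
    intro x
    rw [le_div_iff₀ h0]
    have h2 : stat p x * F x ≤ E :=
      Finset.single_le_sum (f := fun x => stat p x * F x)
        (fun i _ => (mul_pos (hpos i) (hFp i)).le) (Finset.mem_univ x)
    have h3 : p ≤ stat p x := by
      fin_cases x <;> simp [stat]; linarith
    have := mul_le_mul_of_nonneg_right h3 (hFp x).le
    linarith
  -- the local comparison
  have hloc : ∀ x y, p / E * (F x - F y) ^ 2 ≤ (F x - F y) * (f x - f y) := by
    have main : ∀ x y, F y ≤ F x → p / E * (F x - F y) ^ 2 ≤ (F x - F y) * (f x - f y) := by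
      intro x y hxy
      have h2 : 0 ≤ F x - F y := by linarith
      have h3 : (F x - F y) / F x ≤ f x - f y := by
        have h4 : Real.log (F y / F x) ≤ F y / F x - 1 :=
          Real.log_le_sub_one_of_pos (div_pos (hFp y) (hFp x))
        have h5 : Real.log (F y / F x) = f y - f x := by
          rw [Real.log_div (hFp y).ne' (hFp x).ne']
          simp [hF]
        have h6 : (F x - F y) / F x = 1 - F y / F x := by
          have := (hFp x).ne'
          field_simp
        linarith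
      have h4 : p / E * (F x - F y) ≤ (F x - F y) / F x := by
        rw [mul_comm, div_eq_mul_inv (F x - F y)]
        refine mul_le_mul_of_nonneg_left ?_ h2
        rw [← one_div, div_le_div_iff₀ hE0 (hFp x)]
        have := hmax x
        rw [le_div_iff₀ h0] at this
        linarith
      calc p / E * (F x - F y) ^ 2 = (F x - F y) * (p / E * (F x - F y)) := by ring
        _ ≤ (F x - F y) * (f x - f y) := mul_le_mul_of_nonneg_left (h4.trans h3) h2
    intro x y
    rcases le_total (F y) (F x) with h | h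
    · exact main x y h
    · have := main y x h
      linarith
  have h01 := hloc 0 1
  have h12 := hloc 1 2
  have hl2 : ent (stat p) F ≤ 3 * (p / E * (F 0 - F 1) ^ 2 + p / E * (F 1 - F 2) ^ 2) := by
    refine hl.trans ?_
    have : 3 * (p / E * (F 0 - F 1) ^ 2 + p / E * (F 1 - F 2) ^ 2) =
        (3 * (p * (F 0 - F 1) ^ 2 + p * (F 1 - F 2) ^ 2)) / E := by ring
    rw [this]
    apply div_le_div_of_nonneg_right _ hE0.le
    nlinarith [sq_nonneg ((F 0 - F 1) - (F 1 - F 2)), sq_nonneg (F 0 - F 1)]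
  have h6 : (0 : ℝ) ≤ p / 6 := by positivity
  have h7 := mul_le_mul_of_nonneg_left hl2 h6
  nlinarith

theorem cMLS_ge (h0 : 0 < p) (h1 : p ≤ 1 / 8) : p / 6 ≤ cMLS (chain p) (stat p) := by
  unfold cMLS
  refine le_csInf ?_ ?_
  · exact ⟨_, fun x => if x = 0 then 1 else 0, ⟨0, 1, by simp⟩, rfl⟩
  · rintro r ⟨f, hf, rfl⟩
    exact ratio_ge h0 h1 f hf


theorem exp_neg_small {L : ℝ} (hL : 100 ≤ L) : Real.exp (-L) ≤ 2 / L ^ 2 := by
  have h1 : L ^ 2 / 2 ≤ Real.exp L := by
    have := Real.quadratic_le_exp_of_nonneg (by linarith : (0 : ℝ) ≤ L)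
    linarith
  rw [Real.exp_neg, inv_eq_one_div, div_le_div_iff₀ (Real.exp_pos _) (by positivity)]
  linarith

theorem cMLS_le {L : ℝ} (hL : 100 ≤ L) (h1 : Real.exp (-L) ≤ 1 / 8) :
    cMLS (chain (Real.exp (-L))) (stat (Real.exp (-L))) ≤ (Real.log L + 1) / L := by
  have h0 : 0 < Real.exp (-L) := Real.exp_pos _
  have hL0 : 0 < L := by linarith
  have hlog0 : 0 ≤ Real.log L := Real.log_nonneg (by linarith)
  have hlogL : Real.log L ≤ L := (Real.log_le_sub_one_of_pos hL0).trans (by linarith)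
  set p : ℝ := Real.exp (-L) with hp
  set f : Fin 3 → ℝ := ![L, L - Real.log L, 0] with hf
  have f0 : f 0 = L := by simp [hf]
  have f1 : f 1 = L - Real.log L := by simp [hf]
  have f2 : f 2 = 0 := by simp [hf]
  have hnc : ∃ x y, f x ≠ f y := ⟨0, 2, by rw [f0, f2]; exact hL0.ne'⟩
  have pF0 : p * Real.exp (f 0) = 1 := by
    rw [f0, hp, ← Real.exp_add]; simp
  have pF1 : p * Real.exp (f 1) = 1 / L := by
    rw [f1, Real.exp_sub, Real.exp_log hL0, hp, ← mul_div_assoc, ← Real.exp_add]; simp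
  have F2 : Real.exp (f 2) = 1 := by rw [f2, Real.exp_zero]
  have hmem : cMLS (chain p) (stat p) ≤
      dirichlet (chain p) (stat p) (fun x => Real.exp (f x)) f /
        ent (stat p) (fun x => Real.exp (f x)) := by
    refine csInf_le ⟨0, ?_⟩ ⟨f, hnc, rfl⟩
    rintro r ⟨g, hg, rfl⟩
    exact le_trans (by positivity) (ratio_ge h0 h1 g hg)
  have hE : dirichlet (chain p) (stat p) (fun x => Real.exp (f x)) f ≤
      (Real.log L + 1) / 2 := by
    rw [dirichlet_eq h1]
    have e1 : p / 2 * ((Real.exp (f 0) - Real.exp (f 1)) * (f 0 - f 1) +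
        (Real.exp (f 1) - Real.exp (f 2)) * (f 1 - f 2)) =
        1 / 2 * ((p * Real.exp (f 0) - p * Real.exp (f 1)) * (f 0 - f 1) +
        (p * Real.exp (f 1) - p * Real.exp (f 2)) * (f 1 - f 2)) := by ring
    rw [e1, pF0, pF1, F2, f0, f1, f2]
    have hL1 : 0 < 1 / L := by positivity
    have e2 : (1 / L - p * 1) * (L - Real.log L - 0) ≤ 1 := by
      have : 1 / L * L = 1 := by field_simp
      nlinarith
    have e3 : (1 - 1 / L) * (L - (L - Real.log L)) ≤ Real.log L := by nlinarith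
    linarith
  have hS : ent (stat p) (fun x => Real.exp (f x)) ≥ L / 2 := by
    unfold ent
    simp only [Real.log_exp, Fin.sum_univ_three]
    have s0 : stat p 0 = p := by simp [stat]
    have s1 : stat p 1 = p := by simp [stat]
    have s2 : stat p 2 = 1 - 2 * p := by simp [stat]
    rw [s0, s1, s2]
    have e1 : p * (Real.exp (f 0) * f 0) = L := by
      rw [← mul_assoc, pF0, f0, one_mul]
    have e2 : p * (Real.exp (f 1) * f 1) = 1 / L * (L - Real.log L) := by
      rw [← mul_assoc, pF1, f1]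
    rw [e1, e2, f2, pF0, pF1, Real.exp_zero]
    have hL1 : 0 < 1 / L := by positivity
    have hL2 : 1 / L ≤ 1 / 100 := by
      rw [div_le_div_iff₀ hL0 (by norm_num)]; linarith
    set S : ℝ := 1 + 1 / L + (1 - 2 * p) * 1 with hSd
    have hS1 : 1 ≤ S := by rw [hSd]; linarith
    have hS2 : S ≤ 2 + 1 / 100 := by rw [hSd]; linarith
    have hS3 : Real.log S ≤ S - 1 := Real.log_le_sub_one_of_pos (by linarith)
    have hS4 : S * Real.log S ≤ 3 := by nlinarith
    have e3 : 0 ≤ 1 / L * (L - Real.log L) := by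
      apply mul_nonneg hL1.le; linarith
    linarith
  refine hmem.trans ?_
  rw [div_le_div_iff₀ (by linarith) hL0]
  nlinarith

end chain

/-- **Disproof of Q1.**  For every choice of the constant `C_ent > 0` in the definition of `ρ_ent`
and for every `C` there is an irreducible reversible chain (on three states) with `c_MLS > 0`,
`1 / c_MLS > C ρ_ent` and `1 / c_MLS > C τ_ent`. -/
theorem result : ∀ Cent : ℝ, 0 < Cent → ∀ C : ℝ,
    ∃ (P : Matrix (Fin 3) (Fin 3) ℝ) (π : Fin 3 → ℝ), IsReversibleChain P π ∧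
      0 < cMLS P π ∧ C * rhoEnt Cent P π < 1 / cMLS P π ∧ C * tauEnt P π < 1 / cMLS P π := by
  intro Cent hCent C
  set K : ℝ := 20 + 2 / Cent with hK
  have hK20 : 20 ≤ K := by
    have : 0 < 2 / Cent := by positivity
    linarith
  have hK2 : 2 / Cent ≤ K := by linarith
  have hK0 : 0 < K := by linarith
  set a : ℝ := K * Real.exp 1 with ha
  have ha0 : 0 < a := by positivity
  have hlo := (Real.isLittleO_pow_log_id_atTop (n := 2)).bound
    (show (0 : ℝ) < 1 / (12 * (|C| + 1) * a) by positivity)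
  have hlin : Tendsto (fun L : ℝ => a * L) atTop atTop := tendsto_id.const_mul_atTop ha0
  obtain ⟨L, hL1, hL⟩ := ((hlin.eventually hlo).and (eventually_ge_atTop (100 : ℝ))).exists
  have hL0 : 0 < L := by linarith
  have hp0 : 0 < Real.exp (-L) := Real.exp_pos _
  have hsm := exp_neg_small hL
  have hp8 : Real.exp (-L) ≤ 1 / 8 := by
    refine hsm.trans ?_
    rw [div_le_div_iff₀ (by positivity) (by norm_num)]
    nlinarith
  have hlogp : Real.log (1 / Real.exp (-L)) = L := by
    rw [one_div, Real.log_inv, Real.log_exp]; ring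
  have hlog0 : 0 ≤ Real.log L := Real.log_nonneg (by linarith)
  set t : ℝ := 6 * Real.log (K * L) with ht
  have hKL : 1 ≤ K * L := by nlinarith
  have ht0 : 0 ≤ t := by
    have := Real.log_nonneg hKL
    linarith
  have het : Real.exp (-(t / 6)) = 1 / (K * L) := by
    have : t / 6 = Real.log (K * L) := by rw [ht]; ring
    rw [this, Real.exp_neg, Real.exp_log (by positivity), one_div]
  have hpL : Real.exp (-L) * L ≤ 1 / 50 := by
    have h1 := mul_le_mul_of_nonneg_right hsm hL0.le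
    have h2 : 2 / L ^ 2 * L = 2 / L := by field_simp
    rw [h2] at h1
    refine h1.trans ?_
    rw [div_le_div_iff₀ hL0 (by norm_num)]
    linarith
  have hp100 : Real.exp (-L) ≤ 1 / 100 := by nlinarith
  -- the two time parameters
  have hrho : rhoEnt Cent (chain (Real.exp (-L))) (stat (Real.exp (-L))) ≤ t := by
    refine rho_le hp0 hp8 hCent t ht0 ?_
    rw [hlogp, het]
    refine le_min ?_ ?_
    · rw [mul_one_div, div_le_div_iff₀ (by positivity) hL0]
      have h1 : 2 ≤ Cent * K := by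
        rw [div_le_iff₀ hCent] at hK2
        linarith
      nlinarith
    · rw [mul_one_div, div_le_div_iff₀ (by positivity) (by norm_num)]
      nlinarith
  have htau : tauEnt (chain (Real.exp (-L))) (stat (Real.exp (-L))) ≤ t := by
    refine tau_le hp0 hp8 t ht0 ?_
    rw [hlogp, het]
    have h1 : 5 / 3 * (1 / (K * L)) * L ≤ 1 / 12 := by
      have h2 : 5 / 3 * (1 / (K * L)) * L = 5 / (3 * K) := by field_simp
      rw [h2, div_le_div_iff₀ (by positivity) (by norm_num)]
      linarith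
    have h3 : (5 / 3 * (1 / (K * L)) + 6 * Real.exp (-L)) * L =
        5 / 3 * (1 / (K * L)) * L + 6 * (Real.exp (-L) * L) := by ring
    rw [h3]
    linarith
  have hc0 : 0 < cMLS (chain (Real.exp (-L))) (stat (Real.exp (-L))) :=
    lt_of_lt_of_le (by positivity) (cMLS_ge hp0 hp8)
  have hc1 := cMLS_le hL hp8
  -- comparison of `C t` with `L / (log L + 1)`
  have hmain : |C| * t < 1 / cMLS (chain (Real.exp (-L))) (stat (Real.exp (-L))) := by
    have h1 : L / (Real.log L + 1) ≤
        1 / cMLS (chain (Real.exp (-L))) (stat (Real.exp (-L))) := by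
      rw [le_div_iff₀ hc0, div_mul_eq_mul_div, div_le_one (by linarith)]
      have := mul_le_mul_of_nonneg_left hc1 hL0.le
      rwa [mul_div_cancel₀ _ hL0.ne'] at this
    refine lt_of_lt_of_le ?_ h1
    rw [lt_div_iff₀ (by linarith)]
    have hlogK : 0 ≤ Real.log K := Real.log_nonneg (by linarith)
    have hy : Real.log (a * L) = Real.log K + 1 + Real.log L := by
      rw [ha, Real.log_mul (by positivity) hL0.ne', Real.log_mul hK0.ne' (Real.exp_pos 1).ne',
        Real.log_exp]
    have hKLlog : Real.log (K * L) = Real.log K + Real.log L :=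
      Real.log_mul hK0.ne' hL0.ne'
    have h2 : |Real.log (a * L) ^ 2| ≤ 1 / (12 * (|C| + 1) * a) * |a * L| := by
      simpa using hL1
    rw [abs_of_nonneg (sq_nonneg _), abs_of_pos (show 0 < a * L by positivity)] at h2
    have h3 : 1 / (12 * (|C| + 1) * a) * (a * L) = L / (12 * (|C| + 1)) := by
      have : |C| + 1 ≠ 0 := by positivity
      field_simp
    rw [h3, le_div_iff₀ (by positivity)] at h2
    have h4 : Real.log (K * L) * (Real.log L + 1) ≤ Real.log (a * L) ^ 2 := by
      rw [hy, hKLlog]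
      nlinarith
    have h5 : 0 ≤ Real.log (K * L) * (Real.log L + 1) := by
      rw [hKLlog]; positivity
    have hC0 := abs_nonneg C
    calc |C| * t * (Real.log L + 1) = 6 * |C| * (Real.log (K * L) * (Real.log L + 1)) := by
          rw [ht]; ring
      _ ≤ 6 * (|C| + 1) * (Real.log (K * L) * (Real.log L + 1)) := by nlinarith
      _ ≤ 6 * (|C| + 1) * Real.log (a * L) ^ 2 := by
          refine mul_le_mul_of_nonneg_left h4 (by positivity)
      _ ≤ L / 2 := by linarith
      _ < L := by linarith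
  have hrho0 : 0 ≤ rhoEnt Cent (chain (Real.exp (-L))) (stat (Real.exp (-L))) := by
    unfold rhoEnt
    exact Real.iSup_nonneg fun x => Real.sInf_nonneg fun s hs => hs.1
  have htau0 : 0 ≤ tauEnt (chain (Real.exp (-L))) (stat (Real.exp (-L))) := by
    unfold tauEnt
    exact Real.iSup_nonneg fun x => Real.sInf_nonneg fun s hs => hs.1
  refine ⟨chain (Real.exp (-L)), stat (Real.exp (-L)), isChain hp0 hp8, hc0, ?_, ?_⟩
  · refine lt_of_le_of_lt ?_ hmain
    calc C * rhoEnt Cent (chain (Real.exp (-L))) (stat (Real.exp (-L)))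
        ≤ |C| * rhoEnt Cent (chain (Real.exp (-L))) (stat (Real.exp (-L))) :=
          mul_le_mul_of_nonneg_right (le_abs_self C) hrho0
      _ ≤ |C| * t := mul_le_mul_of_nonneg_left hrho (abs_nonneg C)
  · refine lt_of_le_of_lt ?_ hmain
    calc C * tauEnt (chain (Real.exp (-L))) (stat (Real.exp (-L)))
        ≤ |C| * tauEnt (chain (Real.exp (-L))) (stat (Real.exp (-L))) :=
          mul_le_mul_of_nonneg_right (le_abs_self C) htau0
      _ ≤ |C| * t := mul_le_mul_of_nonneg_left htau (abs_nonneg C)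


end Pool.Agent.Results.MP_bada7b_pr.NotComparable
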